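import Mathlib

set_option autoImplicit false

namespace Pool.Agent.Results.MP_7a9eeb_co.LargerWinnableGraph

open Finset

/-- The neighbourhood Lights Out game with labels in `ℤ/ℓ` is winnable on `G` from every initial
labelling: toggling each vertex `u` exactly `t u` times makes every label `0`. -/
def AlwaysWinnable {V : Type} [Fintype V] [DecidableEq V] (G : SimpleGraph V) [DecidableRel G.Adj]
    (ℓ : ℕ) : Prop :=
  ∀ lab : V → ZMod ℓ, ∃ t : V → ℕ, ∀ v : V,
    lab v + ∑ u ∈ univ.filter (fun u => u = v ∨ G.Adj v u), (t u : ZMod ℓ) = 0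

/-- Complete multipartite graph with one part of size `4` and `m` parts of size `2`. -/
def GG (m : ℕ) : SimpleGraph (Fin 4 ⊕ Fin m × Bool) where
  Adj x y := match x, y with
    | Sum.inl _, Sum.inl _ => False
    | Sum.inl _, Sum.inr _ => True
    | Sum.inr _, Sum.inl _ => True
    | Sum.inr p, Sum.inr q => p.1 ≠ q.1
  symm := ⟨by
    rintro (x | x) (y | y) h
    · exact h
    · trivial
    · trivial
    · exact Ne.symm h⟩
  loopless := ⟨by
    rintro (x | x) h
    · exact h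
    · exact h rfl⟩

instance (m : ℕ) : DecidableRel (GG m).Adj := fun x y => match x, y with
  | Sum.inl _, Sum.inl _ => isFalse (fun h => h)
  | Sum.inl _, Sum.inr _ => isTrue trivial
  | Sum.inr _, Sum.inl _ => isTrue trivial
  | Sum.inr p, Sum.inr q => inferInstanceAs (Decidable (p.1 ≠ q.1))

theorem sum_inl {R : Type} [CommRing R] (m : ℕ) (t : Fin 4 ⊕ Fin m × Bool → R) (i : Fin 4) :
    ∑ u ∈ univ.filter (fun u => u = Sum.inl i ∨ (GG m).Adj (Sum.inl i) u), t u
      = t (Sum.inl i) + ∑ p : Fin m × Bool, t (Sum.inr p) := by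
  rw [Finset.sum_filter, Fintype.sum_sum_type]
  congr 1
  · have : ∀ j : Fin 4, (if (Sum.inl j : Fin 4 ⊕ Fin m × Bool) = Sum.inl i ∨
        (GG m).Adj (Sum.inl i) (Sum.inl j) then t (Sum.inl j) else 0)
        = if j = i then t (Sum.inl j) else 0 := by
      intro j
      have h1 : ¬ (GG m).Adj (Sum.inl i) (Sum.inl j) := fun h => h
      by_cases h : j = i
      · simp [h]
      · simp [h, h1]
    rw [Finset.sum_congr rfl fun j _ => this j]
    simp

theorem sum_inr {R : Type} [CommRing R] (m : ℕ) (t : Fin 4 ⊕ Fin m × Bool → R) (i : Fin m)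
    (b : Bool) :
    ∑ u ∈ univ.filter (fun u => u = Sum.inr (i, b) ∨ (GG m).Adj (Sum.inr (i, b)) u), t u
      = (∑ j : Fin 4, t (Sum.inl j)) + (∑ p : Fin m × Bool, t (Sum.inr p))
        - t (Sum.inr (i, !b)) := by
  rw [Finset.sum_filter, Fintype.sum_sum_type, add_sub_assoc]
  congr 1
  have : ∀ p : Fin m × Bool, (if (Sum.inr p : Fin 4 ⊕ Fin m × Bool) = Sum.inr (i, b) ∨
        (GG m).Adj (Sum.inr (i, b)) (Sum.inr p) then t (Sum.inr p) else 0)
        = t (Sum.inr p) - if p = (i, !b) then t (Sum.inr p) else 0 := by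
    rintro ⟨j, c⟩
    have h1 : (GG m).Adj (Sum.inr (i, b)) (Sum.inr (j, c)) ↔ i ≠ j := Iff.rfl
    by_cases hj : j = i
    · subst hj
      rcases Bool.eq_or_eq_not c b with rfl | rfl
      · simp
      · simp [h1]
    · have hj' : i ≠ j := fun h => hj h.symm
      simp [h1, hj, hj']
  rw [Finset.sum_congr rfl fun p _ => this p, Finset.sum_sub_distrib]
  simp

theorem key {ℓ : ℕ} (m : ℕ) (hu : IsUnit ((6 * m + 1 : ℕ) : ZMod ℓ))
    (t : Fin 4 ⊕ Fin m × Bool → ZMod ℓ)
    (ht : ∀ v, ∑ u ∈ univ.filter (fun u => u = v ∨ (GG m).Adj v u), t u = 0) : t = 0 := by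
  set S0 := ∑ j : Fin 4, t (Sum.inl j) with hS0
  set S1 := ∑ p : Fin m × Bool, t (Sum.inr p) with hS1
  have h1 : ∀ i : Fin 4, t (Sum.inl i) = - S1 := by
    intro i
    have := ht (Sum.inl i)
    rw [sum_inl] at this
    exact eq_neg_of_add_eq_zero_left this
  have h2 : ∀ (i : Fin m) (b : Bool), t (Sum.inr (i, b)) = S0 + S1 := by
    intro i b
    have := ht (Sum.inr (i, !b))
    rw [sum_inr, Bool.not_not] at this
    exact (sub_eq_zero.1 this).symm
  have h3 : S0 = - 4 * S1 := by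
    rw [hS0, Finset.sum_congr rfl fun i _ => h1 i]
    simp
  have h4 : S1 = (2 * m : ℕ) * (S0 + S1) := by
    conv_lhs => rw [hS1, Finset.sum_congr rfl fun (p : Fin m × Bool) _ => h2 p.1 p.2]
    simp only [Finset.sum_const, Finset.card_univ, Fintype.card_prod, Fintype.card_fin,
      Fintype.card_bool, nsmul_eq_mul]
    push_cast
    ring
  have h5 : ((6 * m + 1 : ℕ) : ZMod ℓ) * S1 = 0 := by
    rw [h3] at h4
    push_cast at h4 ⊢
    linear_combination h4
  have h6 : S1 = 0 := (hu.mul_right_eq_zero).1 h5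
  have h7 : S0 = 0 := by rw [h3, h6, mul_zero]
  funext v
  rcases v with i | ⟨i, b⟩
  · rw [h1, h6, neg_zero]; rfl
  · rw [h2, h6, h7, add_zero]; rfl

theorem winnable {ℓ : ℕ} (hℓ : ℓ ≠ 0) (m : ℕ) (hu : Nat.Coprime (6 * m + 1) ℓ) :
    AlwaysWinnable (GG m) ℓ := by
  have : NeZero ℓ := ⟨hℓ⟩
  have hu' : IsUnit ((6 * m + 1 : ℕ) : ZMod ℓ) := (ZMod.isUnit_iff_coprime _ _).2 hu
  set F : (Fin 4 ⊕ Fin m × Bool → ZMod ℓ) → (Fin 4 ⊕ Fin m × Bool → ZMod ℓ) :=
    fun t v => ∑ u ∈ univ.filter (fun u => u = v ∨ (GG m).Adj v u), t u with hF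
  have hinj : Function.Injective F := by
    intro s t hst
    have h1 : s - t = 0 := by
      refine key m hu' (s - t) fun v => ?_
      have := congrFun hst v
      simp only [hF] at this
      simp only [Pi.sub_apply, Finset.sum_sub_distrib]
      rw [this, sub_self]
    exact sub_eq_zero.1 h1
  have hsurj : Function.Surjective F := Finite.injective_iff_surjective.1 hinj
  intro lab
  obtain ⟨t, ht⟩ := hsurj (fun v => - lab v)
  refine ⟨fun u => (t u).val, fun v => ?_⟩
  have h1 := congrFun ht v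
  simp only [hF] at h1
  simp only [ZMod.natCast_val, ZMod.cast_id', id_eq]
  rw [h1, add_neg_cancel]

theorem degree_inl (m : ℕ) (i : Fin 4) : (GG m).degree (Sum.inl i) = 2 * m := by
  have h := sum_inl (R := ℤ) m (fun _ => 1) i
  have h1 : univ.filter (fun u => u = Sum.inl i ∨ (GG m).Adj (Sum.inl i) u)
      = insert (Sum.inl i) ((GG m).neighborFinset (Sum.inl i)) := by
    ext u
    simp
  rw [h1, Finset.sum_insert (by simp)] at h
  simp only [Finset.sum_const, Finset.card_univ, Fintype.card_prod, Fintype.card_fin,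
      Fintype.card_bool, SimpleGraph.card_neighborFinset_eq_degree, nsmul_eq_mul, mul_one] at h
  push_cast at h
  have : ((GG m).degree (Sum.inl i) : ℤ) = 2 * m := by linarith
  exact_mod_cast this

theorem degree_inr (m : ℕ) (p : Fin m × Bool) : (GG m).degree (Sum.inr p) = 2 * m + 2 := by
  obtain ⟨i, b⟩ := p
  have h := sum_inr (R := ℤ) m (fun _ => 1) i b
  have h1 : univ.filter (fun u => u = Sum.inr (i, b) ∨ (GG m).Adj (Sum.inr (i, b)) u)
      = insert (Sum.inr (i, b)) ((GG m).neighborFinset (Sum.inr (i, b))) := by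
    ext u
    simp
  rw [h1, Finset.sum_insert (by simp)] at h
  simp only [Finset.sum_const, Finset.card_univ, Fintype.card_prod, Fintype.card_fin,
      Fintype.card_bool, SimpleGraph.card_neighborFinset_eq_degree, nsmul_eq_mul, mul_one] at h
  push_cast at h
  have : ((GG m).degree (Sum.inr (i, b)) : ℤ) = 2 * m + 2 := by linarith
  exact_mod_cast this

theorem card_edges (m : ℕ) : (GG m).edgeFinset.card = 2 * m ^ 2 + 6 * m := by
  have h := (GG m).sum_degrees_eq_twice_card_edges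
  rw [Fintype.sum_sum_type, Finset.sum_congr rfl fun i _ => degree_inl m i,
    Finset.sum_congr rfl fun p _ => degree_inr m p] at h
  simp only [Finset.sum_const, Finset.card_univ, Fintype.card_prod, Fintype.card_fin,
      Fintype.card_bool, smul_eq_mul] at h
  nlinarith

/-- Arithmetic: a suitable number of vertices and modulus. -/
theorem arith (k : ℕ) : ∃ m ℓ : ℕ, ℓ ≠ 0 ∧ Even ℓ ∧
    IsLeast {j : ℕ | Int.gcd ((2 * m + 4 : ℕ) - 2 * (j : ℤ) - 1) ℓ = 1} k ∧
    Nat.Coprime (6 * m + 1) ℓ := by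
  set p : ℕ → ℕ := fun t => Nat.nth Nat.Prime (12 * k + 20 + t) with hp
  have hprime : ∀ t, (p t).Prime := fun t => Nat.prime_nth_prime _
  have hbig : ∀ t, 12 * k + 20 < p t := by
    intro t
    have := Nat.add_two_le_nth_prime (12 * k + 20 + t)
    simp only [hp]
    omega
  have hinj : Function.Injective p := by
    intro s t hst
    have := Nat.nth_injective Nat.infinite_setOfPred_prime hst
    omega
  have hodd : ∀ t, Odd (p t) := fun t =>
    (hprime t).odd_of_ne_two (by have := hbig t; omega)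
  obtain ⟨m, hm⟩ := Nat.chineseRemainderOfFinset (fun t => t + (p t - 3) / 2) p (Finset.range k)
    (fun t _ => (hprime t).ne_zero)
    (fun s _ t _ hst => (Nat.coprime_primes (hprime s) (hprime t)).2 fun h => hst (hinj h))
  have hdvd : ∀ t, t < k → (p t : ℤ) ∣ 2 * m + 3 - 2 * t := by
    intro t ht
    have h1 := hm t (Finset.mem_range.2 ht)
    have h2 : (p t : ℤ) ∣ (t + (p t - 3) / 2 : ℕ) - m := Nat.modEq_iff_dvd.1 h1
    obtain ⟨q, hq⟩ := hodd t
    have h3 : (p t - 3) / 2 = q - 1 := by omega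
    have hq1 : 1 ≤ q := by have := hbig t; omega
    rw [h3] at h2
    have h4 : ((t + (q - 1) : ℕ) : ℤ) = t + q - 1 := by omega
    rw [h4] at h2
    have h5 : (2 * m + 3 - 2 * t : ℤ) = (p t : ℤ) - 2 * (t + q - 1 - m) := by
      have : (p t : ℤ) = 2 * q + 1 := by exact_mod_cast hq
      rw [this]; ring
    rw [h5]
    exact dvd_sub (dvd_refl _) (Dvd.dvd.mul_left h2 2)
  set ℓ : ℕ := 2 * ∏ t ∈ Finset.range k, p t with hℓ
  have hsmall : ∀ (t : ℕ) (x : ℤ), (p t : ℤ) ∣ x → |x| ≤ 12 * k + 20 → x = 0 := by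
    intro t x hx hle
    refine Int.eq_zero_of_abs_lt_dvd hx ?_
    have := hbig t
    have h' : ((12 * k + 20 : ℕ) : ℤ) < p t := by exact_mod_cast this
    push_cast at h'
    linarith
  refine ⟨m, ℓ, ?_, ⟨∏ t ∈ Finset.range k, p t, by rw [hℓ]; ring⟩, ⟨?_, ?_⟩, ?_⟩
  · rw [hℓ]
    exact mul_ne_zero two_ne_zero (Finset.prod_ne_zero_iff.2 fun t _ => (hprime t).ne_zero)
  · -- gcd = 1 at k
    show Int.gcd ((2 * m + 4 : ℕ) - 2 * (k : ℤ) - 1) ℓ = 1
    rw [← Int.isCoprime_iff_gcd_eq_one]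
    have h0 : ((ℓ : ℕ) : ℤ) = 2 * ∏ t ∈ Finset.range k, (p t : ℤ) := by
      rw [hℓ]; push_cast; rfl
    rw [h0]
    refine IsCoprime.mul_right ?_ (IsCoprime.prod_right ?_)
    · refine ⟨1, -(m + 1 - k : ℤ), ?_⟩
      push_cast
      ring
    · intro t ht
      rw [Finset.mem_range] at ht
      rw [isCoprime_comm, Prime.coprime_iff_not_dvd (Nat.prime_iff_prime_int.1 (hprime t))]
      intro hd
      have h1 := hdvd t ht
      have h2 := dvd_sub h1 hd
      push_cast at h2
      have h3 : ((2 * m + 3 - 2 * t : ℤ) - (2 * m + 4 - 2 * k - 1)) = 2 * k - 2 * t := by ring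
      rw [h3] at h2
      have h4 := hsmall t _ h2 (by rw [abs_le]; constructor <;> linarith [(by exact_mod_cast ht : (t : ℤ) < k)])
      have : (t : ℤ) < k := by exact_mod_cast ht
      linarith
  · -- minimality
    intro j hj
    by_contra hlt
    push Not at hlt
    have hj' : Int.gcd ((2 * m + 4 : ℕ) - 2 * (j : ℤ) - 1) ℓ = 1 := hj
    have h1 : (p j : ℤ) ∣ ((2 * m + 4 : ℕ) - 2 * (j : ℤ) - 1) := by
      have := hdvd j hlt
      have h3 : (((2 * m + 4 : ℕ) : ℤ) - 2 * (j : ℤ) - 1) = 2 * m + 3 - 2 * j := by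
        push_cast; ring
      rw [h3]; exact this
    have h2 : (p j : ℤ) ∣ (ℓ : ℤ) := by
      rw [hℓ]
      exact_mod_cast Dvd.dvd.mul_left (Finset.dvd_prod_of_mem p (Finset.mem_range.2 hlt)) 2
    have h3 := Int.dvd_coe_gcd h1 h2
    rw [hj'] at h3
    have h4 := Int.eq_one_of_dvd_one (by positivity) h3
    have h5 := (hprime j).one_lt
    omega
  · -- 6m+1 is coprime to ℓ
    rw [hℓ]
    refine Nat.Coprime.mul_right ?_ (Nat.Coprime.prod_right ?_)
    · rw [Nat.coprime_two_right]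
      exact ⟨3 * m, by ring⟩
    · intro t ht
      rw [Finset.mem_range] at ht
      rw [Nat.coprime_comm, (hprime t).coprime_iff_not_dvd]
      intro hd
      have hd' : (p t : ℤ) ∣ (6 * m + 1 : ℤ) := by exact_mod_cast hd
      have h1 := hdvd t ht
      have h2 := dvd_sub (Dvd.dvd.mul_left h1 3) hd'
      have h3 : (3 * (2 * m + 3 - 2 * t) - (6 * m + 1) : ℤ) = 8 - 6 * t := by ring
      rw [h3] at h2
      have ht' : (t : ℤ) < k := by exact_mod_cast ht
      have h4 := hsmall t _ h2 (by rw [abs_le]; constructor <;> linarith [(by positivity : (0 : ℤ) ≤ t)])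
      omega

/-- Negative answer to Q1. For every `k ≥ 5` there are even `n, ℓ` such that `k` is the least
nonnegative integer with `gcd (n - 2k - 1, ℓ) = 1`, and an always-winnable graph on `n` vertices
with exactly `C(n,2) - (n/2 + 4)` edges, hence with more than `C(n,2) - (n/2 + k)` edges. -/
theorem result : ∀ k : ℕ, 5 ≤ k → ∃ n ℓ : ℕ, 2 ≤ n ∧ 2 ≤ ℓ ∧ Even n ∧ Even ℓ ∧
    IsLeast {j : ℕ | Int.gcd ((n : ℤ) - 2 * (j : ℤ) - 1) ℓ = 1} k ∧
    ∃ (V : Type) (_ : Fintype V) (_ : DecidableEq V) (G : SimpleGraph V) (_ : DecidableRel G.Adj),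
      Fintype.card V = n ∧ AlwaysWinnable G ℓ ∧
      (G.edgeFinset.card : ℤ) = (n.choose 2 : ℤ) - ((n / 2 : ℕ) + 4) ∧
      (n.choose 2 : ℤ) - ((n / 2 : ℕ) + k) < (G.edgeFinset.card : ℤ) := by
  intro k hk
  obtain ⟨m, ℓ, hℓ0, hℓe, hleast, hcop⟩ := arith k
  have hℓ2 : 2 ≤ ℓ := by
    obtain ⟨r, hr⟩ := hℓe
    omega
  have hedge : ((GG m).edgeFinset.card : ℤ)
      = ((2 * m + 4 : ℕ).choose 2 : ℤ) - (((2 * m + 4) / 2 : ℕ) + 4) := by
    rw [card_edges]
    have h1 : (2 * m + 4) / 2 = m + 2 := by omega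
    have h2 : (2 * m + 4).choose 2 = (m + 2) * (2 * m + 3) := by
      rw [Nat.choose_two_right]
      have : (2 * m + 4) * (2 * m + 4 - 1) = 2 * ((m + 2) * (2 * m + 3)) := by
        have : 2 * m + 4 - 1 = 2 * m + 3 := by omega
        rw [this]; ring
      rw [this]
      omega
    rw [h1, h2]
    push_cast
    ring
  refine ⟨2 * m + 4, ℓ, by omega, hℓ2, ⟨m + 2, by ring⟩, hℓe, hleast,
    Fin 4 ⊕ Fin m × Bool, inferInstance, inferInstance, GG m, inferInstance, ?_,
    winnable hℓ0 m hcop, hedge, ?_⟩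
  · simp
    ring
  · rw [hedge]
    have : (5 : ℤ) ≤ k := by exact_mod_cast hk
    linarith

end Pool.Agent.Results.MP_7a9eeb_co.LargerWinnableGraph
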